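import Pool.Agent.H574.CF.Slice9

/-!
# Hilbert squares inside the divisors `𝒞_d`, `d = 2 a²`

The conjecture of Galkin and Shinder says that a smooth cubic fourfold `X` is rational if and only
if the variety `F(X)` of the lines in `X` is birational to `S^[2]` for a K3 surface `S`. By the
theorem of Addington the second condition means that `X ∈ 𝒞_d` for a number `d` with
`b² d = 2 n² + 2 n + 2` (`IsStar d`). It implies that `X` has an associated K3 surface (Hassett), but it
is stronger: by the theorem of Addington and Thomas the second condition is the one of Hassett and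
Kuznetsov. We determine which part of a divisor `𝒞_d` with `d = 2 a²`, `a ≥ 2` (that is `𝒞_8` (the fourfolds
containing a plane), `𝒞_18`, `𝒞_32`, `𝒞_50`, `𝒞_72`, `𝒞_98`, …) satisfies the condition in the conjecture.

The general member never does (in `𝒞_98`, `𝒞_338`, … it has an associated K3 surface). We count the
loci `𝒞_M` of codimension one in `𝒞_d`, the loci of the fourfolds with `M ⊆ A(X)`, for the groups
`M` of rank three. To `M` belongs a unique reduced form `A y² + B y z + C z²`, `0 ≤ B ≤ A ≤ C` (one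
half of the discriminant on `M / ℤ h`), and it determines `(M, h)` up to isometry; if `C > a²`, then
`𝒞_M ⊆ 𝒞_d` means `A = a²`.

**Theorem.** (1) The proportion of the loci `𝒞_M ⊆ 𝒞_d`, `C ≤ D`, for which the varieties of the lines
`F(X)`, `X ∈ 𝒞_M`, are birational to Hilbert squares of K3 surfaces tends to
`prop (a²) = (a² ∏ (1 - p⁻²) + ∏ (1 - p⁻¹)) / (a² + 1)` if `3 ∤ a`, and to
`((8 / 9) a² ∏ (1 - p⁻²) + 2 ∏ (1 - p⁻¹)) / (a² + 3)` if `3 ∣ a`, the products over the prime numbers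
`p ≡ 2` modulo `3` which divide `a`. This is always more than `5 / 9`, it is `7/10` for `𝒞_8` and `5/6` for
`𝒞_18`; it is `1` if and only if all prime factors of `a` are `1` modulo `3`, for example for `𝒞_98`.

(2) The number of the loci `𝒞_M ⊆ 𝒞_d` with `C ≤ D`, for which the fourfolds have associated K3 surfaces,
but `F(X)` is not birational to a Hilbert square for `A(X) = M`, is at most `c √D`. So the
conjecture of Galkin and Shinder and the one of Hassett and Kuznetsov make the same prediction for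
`100%` of the loci of codimension one in `𝒞_d`, even when the predictions are different for the general
member of `𝒞_d`. (3) There are such loci, and `√D` is the right order in general: if `a` is a prime
number `≡ 1` modulo `12` such that `-3` is not a fourth power modulo `a`, for example for `𝒞_338`
(`a = 13`), then there are at least `c' √D`.

The idea of (2): if there is an associated K3 surface, but no Hilbert square, then by the theorem
of the library (`Pool.Agent.N801.CF.rk3_core`) the number `(4 A C - B²) / 3` is a square times a divisor of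
`2 a`. In (3) the loci are those of the forms `(a², 0, 3 a s²)`; there is a reciprocity obstruction.

The statements are proved for the saturated subgroups `M` of `L = ⟨1⟩³ ⊕ U² ⊕ E₈²` with `h ∈ M` and
`(v, v) ≥ 3` for `v ≠ 0` in `M` (`IsGood M`; these are the possible groups `A(X)`) without any
hypothesis; then they are translated with the known theorems on cubic fourfolds
(`IsPeriodTheory R`).
-/

set_option autoImplicit false

namespace Pool.Agent.Results.MP_4d0966_ag.InsideTwiceSquareDivisors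

open Pool.Agent.H574.CF Pool.Agent.Q63.CF Pool.Agent.Y95.Q Filter Topology

/-- **Hilbert squares inside the divisors `𝒞_d`, `d = 2 a²`.** -/
theorem result :
    (∀ a : ℕ, 2 ≤ a →
      -- the general member of `𝒞_d`
      (∀ M, IsGood M → Module.finrank ℤ M = 2 → In M (2 * ((a ^ 2 : ℕ) : ℤ)) →
        ¬ Hilb M ∧ (K3 M ↔ ∀ p : ℕ, p.Prime → p ∣ a → p % 3 = 1)) ∧
      -- the loci of codimension one
      (∀ M t, Good3 M → HasForm M t → a ^ 2 < t.2.2 →
        (In M (2 * ((a ^ 2 : ℕ) : ℤ)) ↔ t.1 = a ^ 2)) ∧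
      Tendsto (fun D : ℕ => ((TypesIn (2 * ((a ^ 2 : ℕ) : ℤ)) Hilb D).ncard : ℝ) /
        (TypesIn (2 * ((a ^ 2 : ℕ) : ℤ)) (fun _ => True) D).ncard) atTop (𝓝 (Dens.prop (a ^ 2))) ∧
      5 / 9 < Dens.prop (a ^ 2) ∧
      (Dens.prop (a ^ 2) = 1 ↔ ∀ p : ℕ, p.Prime → p ∣ a → p % 3 = 1) ∧
      ∃ c : ℝ, ∀ D : ℕ, 1 ≤ D →
        ((TypesIn (2 * ((a ^ 2 : ℕ) : ℤ)) (fun M => K3 M ∧ ¬ Hilb M) D).ncard : ℝ) ≤ c * √D) ∧
    Dens.prop 4 = 7 / 10 ∧ Dens.prop 9 = 5 / 6 ∧
    -- the order of magnitude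
    (∀ l : ℕ, l.Prime → l % 12 = 1 → (∀ x : ZMod l, x ^ 4 ≠ -3) →
      ∃ c : ℝ, 0 < c ∧ ∀ᶠ D : ℕ in atTop, c * √D ≤
        ((TypesIn (2 * ((l ^ 2 : ℕ) : ℤ)) (fun M => K3 M ∧ ¬ Hilb M) D).ncard : ℝ)) ∧
    (∃ c : ℝ, 0 < c ∧ ∀ᶠ D : ℕ in atTop, c * √D ≤
      ((TypesIn 338 (fun M => K3 M ∧ ¬ Hilb M) D).ncard : ℝ)) ∧
    -- cubic fourfolds
    ∀ R : CubicFourfold → Submodule ℤ L → Prop, IsPeriodTheory R →
      (∀ M, IsGood M → (Locus R M).Nonempty ∧ (∀ d, Locus R M ⊆ Div R d ↔ In M d) ∧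
        (Hilb M → ∀ X ∈ Locus R M, HasHilb R X) ∧ (¬ Hilb M → ∀ X, R X M → ¬ HasHilb R X) ∧
        (K3 M → ∀ X ∈ Locus R M, HasK3 R X) ∧ (¬ K3 M → ∀ X, R X M → ¬ HasK3 R X)) ∧
      ∀ M t, Good3 M → HasForm M t → (Hilb M → K3 M) ∧
        ∀ M' t', Good3 M' → HasForm M' t' →
          (t = t' ↔ Isometric M M') ∧ (Locus R M ⊆ Locus R M' → t = t') := by
  refine ⟨fun a ha => ⟨fun M hM hr h1 => ⟨not_hilb_two hM.mem hr ha h1, k3_two_iff hM.mem hr ha h1⟩,
    fun M t hM hf hC => in_iff_first hM hf (by positivity) hC, lim_prop_hilb ha, prop_sq_gt ha,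
    prop_sq_iff ha, cst a, fun D hD => exc_le (by omega) D hD⟩, Dens.prop_four, prop_nine,
    fun l hl h12 h4 => exc_ge hl h12 h4, ?_, fun R hR => ⟨fun M hM => ⟨?_, fun d => ⟨fun h1 => ?_,
      fun h1 => ?_⟩, ?_, ?_, ?_, ?_⟩, fun M t hM hf => ⟨k3_of_hilb hM hf,
      fun M' t' hM' hf' => ⟨?_, ?_⟩⟩⟩⟩
  · have h1 := exc_ge (l := 13) (by norm_num) (by norm_num) (by decide)
    have e : (2 * ((13 ^ 2 : ℕ) : ℤ)) = 338 := by norm_num
    rw [e] at h1
    exact h1
  · obtain ⟨X, hX⟩ := hR.exist M hM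
    exact ⟨X, M, hX, le_rfl⟩
  · obtain ⟨X, hX⟩ := hR.exist M hM
    exact (div_iff hR.toIsHodgeTheory hX).1 (h1 ⟨M, hX, le_rfl⟩)
  · rintro X ⟨A, hX, hle⟩
    exact (div_iff hR.toIsHodgeTheory hX).2 (h1.mono hle)
  · rintro ⟨d, hd, hd2⟩ X ⟨A, hX, hle⟩
    exact ⟨d, hd, (div_iff hR.toIsHodgeTheory hX).2 (hd2.mono hle)⟩
  · rintro h1 X hX ⟨d, hd, hd2⟩
    exact h1 ⟨d, hd, (div_iff hR.toIsHodgeTheory hX).1 hd2⟩
  · rintro ⟨d, hd, hd2⟩ X ⟨A, hX, hle⟩
    exact ⟨d, hd, (div_iff hR.toIsHodgeTheory hX).2 (hd2.mono hle)⟩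
  · rintro h1 X hX ⟨d, hd, hd2⟩
    exact h1 ⟨d, hd, (div_iff hR.toIsHodgeTheory hX).1 hd2⟩
  · constructor
    · rintro rfl
      obtain ⟨g, hg, hh⟩ := isom_of_form hf hf' (one_le_of_occ (occ_of hM.1 hM.2 hf))
      exact isometric_of hM.1.mem g hg hh
    · intro hi
      obtain ⟨g, hg, hh⟩ := exists_of_isometric hi
      have h1 := form_of_isom hM.1.mem g hg hh hf
      exact form_unique h1 hf' (one_le_of_occ (occ_of hM'.1 hM'.2 h1))
        (one_le_of_occ (occ_of hM'.1 hM'.2 hf'))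
  · intro hle
    exact form_of_locus hR.toIsHodgeTheory hM.1 hM.2 hf hM'.1 hM'.2 hf' hle

end Pool.Agent.Results.MP_4d0966_ag.InsideTwiceSquareDivisors
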