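import Pool.Agent.H854.CU.Generic

/-!
# The very general cubic fourfold and one explicit cubic fourfold

The very general smooth cubic fourfold `X` has `F(X)` birational to no Hilbert square of a K3 surface
(its Picard number is one), so it should not be rational. We show that this prediction is a
statement on one explicit cubic fourfold, and on the growth of the least degrees of the birational
parametrizations of one explicit sequence of cubic fourfolds over the integers.

Number the monomials `m = x_0 ^ m_0 ⋯ x_5 ^ m_5` of degree three by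
`ν(m) = ∑ m_j 4 ^ j < 4 ^ 6`. Equivalent are:

1. the very general complex cubic fourfold is not rational;
2. the single smooth complex cubic fourfold `∑ exp (2 ^ (ν(m) / 4 ^ 6)) m = 0` is not rational;
3. the least degree of a birational parametrization over `ℂ` of the cubic fourfold
   `X_N : ∑ N ^ N ^ ν(m) m = 0` tends to infinity with `N`; or is only unbounded;
4. the same for the least degrees over `F̄_p` of the reductions of `X_N` modulo all the primes
   `p > N ^ N ^ 4 ^ 6`; or only for one such prime for each `N`.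
-/

set_option autoImplicit false

namespace Pool.Agent.Results.MP_4d0966_ag.OneExplicitFourfold

open MvPolynomial Filter Pool.Agent.Q26.FO Pool.Agent.H854.CU
open Pool.Agent.Results.MP_2619d0_ag.FiniteFieldCriterion

theorem aeval_ne_zero {n : ℕ} (Ψ : MvPolynomial (Idx (n + 2) 3) ℤ) (hΨ : Ψ ≠ 0) :
    aeval (fun m : Idx (n + 2) 3 =>
      Complex.exp (((2 : ℝ) ^ ((num m.1 : ℝ) / 4 ^ (n + 2)) : ℝ) : ℂ)) Ψ ≠ 0 := fun h0 =>
  hΨ (algebraicIndependent_iff.1 (algebraicIndependent_coeff n) Ψ h0)

theorem intCubic_eq (n N : ℕ) (K : Type) [Field K] :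
    intCubic n N K = form (d := 3) fun m : Idx (n + 2) 3 =>
      ((pt (fun m : Idx (n + 2) 3 => num m.1) N m : ℤ) : K) := by
  unfold intCubic pt
  congr 1
  funext m
  push_cast
  rfl

variable {n D : ℕ}

/-- the case in which the forms with a parametrization are not dense -/
theorem sparse (h : NotDense (Q n D) ℂ) :
    ¬ Parametrizable n D ℂ (expCubic n) ∧
    (∀ᶠ N in atTop, ¬ Parametrizable n D ℂ (intCubic n N ℂ)) ∧
    ∀ᶠ N in atTop, ∀ p : Nat.Primes, N ^ N ^ 4 ^ (n + 2) < (p : ℕ) →
      ¬ Parametrizable n D (Fbar p) (intCubic n N (Fbar p)) := by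
  have hR : IsFirstOrder (Q n D) := isFirstOrder_hasParametrization n 3 D
  obtain ⟨Ψ, hΨ, h1⟩ := (hR.notDense_law.out 0 1).1 h
  have h2 := ((hR.failsOutside Ψ).lefschetz ℂ).2.1 (h1 ℂ)
  refine ⟨fun h3 => aeval_ne_zero Ψ hΨ (h1 ℂ _ h3), ?_, ?_⟩
  · filter_upwards [eventually_ne_zero_field _ (num_injective (n + 2)) Ψ hΨ ℂ] with N hN h3
    rw [intCubic_eq] at h3
    exact hN (h1 ℂ _ h3)
  · obtain ⟨B, hB⟩ := (h2.image (fun p : Nat.Primes => (p : ℕ))).bddAbove
    filter_upwards [eventually_ne_zero_mod _ (num_injective (n + 2)) _ (num_lt n) Ψ hΨ,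
      eventually_ge_atTop (B + 1)] with N hN hNB p hp h3
    have hgood : HoldsOver (fun K _ (x : Idx (n + 2) 3 → K) => Q n D K x → aeval x Ψ = 0)
        (Fbar p) := by
      by_contra h4
      have h5 : (p : ℕ) ≤ B := hB ⟨p, h4, rfl⟩
      have h6 : N ≤ N ^ N ^ 4 ^ (n + 2) := Nat.le_self_pow (pow_ne_zero _ (by omega)) N
      omega
    rw [intCubic_eq] at h3
    exact hN p hp (hgood _ h3)

/-- the case in which the forms with a parametrization are dense -/
theorem dense (h : ¬ NotDense (Q n D) ℂ) :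
    Parametrizable n D ℂ (expCubic n) ∧
    (∀ᶠ N in atTop, Parametrizable n D ℂ (intCubic n N ℂ)) ∧
    ∀ᶠ N in atTop, ∀ p : Nat.Primes, N ^ N ^ 4 ^ (n + 2) < (p : ℕ) →
      Parametrizable n D (Fbar p) (intCubic n N (Fbar p)) := by
  have hR : IsFirstOrder (Q n D) := isFirstOrder_hasParametrization n 3 D
  obtain ⟨Ψ, hΨ, h1, h2⟩ := (hR.dense_law.out 0 1).1 h
  refine ⟨h1 ℂ _ (aeval_ne_zero Ψ hΨ), ?_, ?_⟩
  · filter_upwards [eventually_ne_zero_field _ (num_injective (n + 2)) Ψ hΨ ℂ] with N hN
    rw [intCubic_eq]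
    exact h1 ℂ _ hN
  · obtain ⟨B, hB⟩ := (h2.image (fun p : Nat.Primes => (p : ℕ))).bddAbove
    filter_upwards [eventually_ne_zero_mod _ (num_injective (n + 2)) _ (num_lt n) Ψ hΨ,
      eventually_ge_atTop (B + 1)] with N hN hNB p hp
    have hgood : HoldsOutside (Q n D) Ψ (Fbar p) := by
      by_contra h4
      have h5 : (p : ℕ) ≤ B := hB ⟨p, fun h6 => h4 h6.2, rfl⟩
      have h6 : N ≤ N ^ N ^ 4 ^ (n + 2) := Nat.le_self_pow (pow_ne_zero _ (by omega)) N
      omega
    rw [intCubic_eq]
    exact hgood _ (hN p hp)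

theorem isRational_iff (hn : 1 ≤ n) :
    IsRational n ℂ (expCubic n) ↔ ∃ D, Parametrizable n D ℂ (expCubic n) := by
  constructor
  · exact fun h => h.hasParametrization (form_isHomogeneous _)
  · rintro ⟨D, h⟩
    exact HasParametrization.isRational (form_isHomogeneous _)
      (irreducible_dehom hn (form_isHomogeneous _)
        (isSmooth_of_algebraicIndependent (n + 2) 1 _ (algebraicIndependent_coeff n))) h

/-- there are arbitrarily large primes -/
theorem exists_prime (B : ℕ) : ∃ p : Nat.Primes, B < (p : ℕ) := by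
  obtain ⟨p, hp, hp'⟩ := Nat.exists_infinite_primes (B + 1)
  exact ⟨⟨p, hp'⟩, by simpa using hp⟩

/-- the explicit cubic with transcendental coefficients is smooth -/
theorem smooth_exp (n : ℕ) : IsSmooth (expCubic n) :=
  isSmooth_of_algebraicIndependent (n + 2) 1 _ (algebraicIndependent_coeff n)

/-- the explicit cubics with integral coefficients are smooth, from some point on -/
theorem smooth_int (n : ℕ) : ∀ᶠ N in atTop, IsSmooth (intCubic n N ℂ) := by
  rcases (isFirstOrder_isSmooth (n + 2) 3).dichotomy with ⟨Ψ, hΨ, h⟩ | ⟨Ψ, hΨ, h⟩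
  · filter_upwards [eventually_ne_zero_field _ (num_injective (n + 2)) Ψ hΨ ℂ] with N hN
    rw [intCubic_eq]
    exact h _ hN
  · exact absurd (smooth_exp n) (h _ (aeval_ne_zero Ψ hΨ))

/-- **One explicit cubic fourfold decides whether the very general cubic fourfold is rational, and so
does the growth of the least degrees of the birational parametrizations of one explicit sequence of
cubic fourfolds with integral coefficients, over `ℂ` or modulo large primes.** -/
theorem result :
    IsSmooth (expCubic 4) ∧ (∀ᶠ N in atTop, IsSmooth (intCubic 4 N ℂ)) ∧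
    [VeryGeneralIrrational 4,
      ¬ IsRational 4 ℂ (expCubic 4),
      ∀ D, ∀ᶠ N in atTop, ¬ Parametrizable 4 D ℂ (intCubic 4 N ℂ),
      ∀ D, ∃ᶠ N in atTop, ¬ Parametrizable 4 D ℂ (intCubic 4 N ℂ),
      ∀ D, ∀ᶠ N in atTop, ∀ p : Nat.Primes, N ^ N ^ 4 ^ 6 < (p : ℕ) →
        ¬ Parametrizable 4 D (Fbar p) (intCubic 4 N (Fbar p)),
      ∀ D, ∃ᶠ N in atTop, ∃ p : Nat.Primes, N ^ N ^ 4 ^ 6 < (p : ℕ) ∧
        ¬ Parametrizable 4 D (Fbar p) (intCubic 4 N (Fbar p))].TFAE := by
  refine ⟨smooth_exp 4, smooth_int 4, ?_⟩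
  rw [veryGeneral_iff 4 (by norm_num), isRational_iff (by norm_num)]
  tfae_have 1 ↔ 2 := by
    rw [not_exists]
    exact forall_congr' fun D => ⟨fun h => (sparse h).1, fun h => by
      by_contra h1
      exact h (dense h1).1⟩
  tfae_have 1 → 3 := fun h D => (sparse (h D)).2.1
  tfae_have 3 → 4 := fun h D => (h D).frequently
  tfae_have 4 → 1 := fun h D => by
    by_contra h1
    exact h D ((dense h1).2.1.mono fun N hN => not_not.2 hN)
  tfae_have 1 → 5 := fun h D => (sparse (h D)).2.2
  tfae_have 5 → 6 := fun h D => (Eventually.frequently ((h D).mono fun N hN => by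
    obtain ⟨p, hp⟩ := exists_prime (N ^ N ^ 4 ^ 6)
    exact ⟨p, hp, hN p hp⟩))
  tfae_have 6 → 1 := fun h D => by
    by_contra h1
    refine h D ((dense h1).2.2.mono fun N hN => ?_)
    rintro ⟨p, hp, hp'⟩
    exact hp' (hN p hp)
  tfae_finish

end Pool.Agent.Results.MP_4d0966_ag.OneExplicitFourfold
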